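import Pool.Agent.Helper21.CT.XB

/-!
The threshold `x_B` of one class with two known weights and a tail, compared with a quadratic
polynomial of the weight of the tail (MP_c75db0). Everything is tested by integer arithmetic:
polynomials in the variable `v` of `[-1, 1]` (the weight of the tail is an affine function of `v`).
-/

set_option autoImplicit false
set_option exponentiation.threshold 4000
noncomputable section
namespace Pool.Agent.Helper55.XT

open Pool.Agent.Helper6.MONO (Kp xA xA_eq xA_gt xA_max xA_swap xA_le2 Thr fB fBx fB_eq ZF CertAt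
  thr_Kp2)
open Pool.Agent.Helper21.XB (hB hB_sub hB_uniq cBr cBr_eq SS KK xBr xBc fBx_root fBx_neg)

/-! ### integer polynomials -/

/-- value of a polynomial -/
def ev : List ℤ → ℝ → ℝ
  | [], _ => 0
  | a :: l, v => a + v * ev l v

/-- sum -/
def ad : List ℤ → List ℤ → List ℤ
  | [], m => m
  | a :: l, m => match m with
    | [] => a :: l
    | b :: m' => (a + b) :: ad l m'

/-- multiple -/
def sc (k : ℤ) : List ℤ → List ℤ
  | [] => []
  | a :: l => (k * a) :: sc k l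

/-- product -/
def ml : List ℤ → List ℤ → List ℤ
  | [], _ => []
  | a :: l, m => ad (sc a m) (0 :: ml l m)

/-- sum of the absolute values of the coefficients -/
def sa : List ℤ → ℕ
  | [] => 0
  | a :: l => a.natAbs + sa l

/-- upper bound on `[-1, 1]` -/
def ub : List ℤ → ℤ
  | [] => 0
  | a :: l => a + (sa l : ℤ)

theorem ev_ad : ∀ (l m : List ℤ) (v : ℝ), ev (ad l m) v = ev l v + ev m v
  | [], m, v => by
    show ev m v = 0 + ev m v
    ring
  | a :: l, [], v => by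
    show ev (a :: l) v = ev (a :: l) v + 0
    ring
  | a :: l, b :: m, v => by
    show ((a + b : ℤ) : ℝ) + v * ev (ad l m) v = (a + v * ev l v) + (b + v * ev m v)
    rw [ev_ad l m v]
    push_cast
    ring

theorem ev_sc (k : ℤ) : ∀ (l : List ℤ) (v : ℝ), ev (sc k l) v = k * ev l v
  | [], v => by
    show (0 : ℝ) = k * 0
    ring
  | a :: l, v => by
    show ((k * a : ℤ) : ℝ) + v * ev (sc k l) v = k * (a + v * ev l v)
    rw [ev_sc k l v]
    push_cast
    ring

theorem ev_ml : ∀ (l m : List ℤ) (v : ℝ), ev (ml l m) v = ev l v * ev m v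
  | [], m, v => by
    show (0 : ℝ) = 0 * ev m v
    ring
  | a :: l, m, v => by
    show ev (ad (sc a m) (0 :: ml l m)) v = (a + v * ev l v) * ev m v
    rw [ev_ad, ev_sc]
    show (a : ℝ) * ev m v + (((0 : ℤ) : ℝ) + v * ev (ml l m) v) = _
    rw [ev_ml l m v]
    push_cast
    ring

theorem abs_ev : ∀ (l : List ℤ) {v : ℝ}, |v| ≤ 1 → |ev l v| ≤ (sa l : ℝ)
  | [], v, _ => by
    show |(0 : ℝ)| ≤ ((0 : ℕ) : ℝ)
    simp
  | a :: l, v, hv => by
    have h := abs_ev l hv
    show |(a : ℝ) + v * ev l v| ≤ ((a.natAbs + sa l : ℕ) : ℝ)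
    have h1 : |v * ev l v| ≤ (sa l : ℝ) := by
      rw [abs_mul]
      calc |v| * |ev l v| ≤ 1 * |ev l v| := mul_le_mul_of_nonneg_right hv (abs_nonneg _)
        _ = |ev l v| := one_mul _
        _ ≤ _ := h
    have h2 : ((a.natAbs : ℕ) : ℝ) = |(a : ℝ)| := by
      rw [Nat.cast_natAbs, Int.cast_abs]
    push_cast
    have h3 := abs_add_le (a : ℝ) (v * ev l v)
    rw [h2]
    linarith

theorem ev_le : ∀ (l : List ℤ) {v : ℝ}, |v| ≤ 1 → ev l v ≤ (ub l : ℝ)
  | [], v, _ => by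
    show (0 : ℝ) ≤ ((0 : ℤ) : ℝ)
    simp
  | a :: l, v, hv => by
    have h := abs_ev l hv
    show (a : ℝ) + v * ev l v ≤ ((a + (sa l : ℤ) : ℤ) : ℝ)
    have h1 : v * ev l v ≤ (sa l : ℝ) := by
      refine (le_abs_self _).trans ?_
      rw [abs_mul]
      calc |v| * |ev l v| ≤ 1 * |ev l v| := mul_le_mul_of_nonneg_right hv (abs_nonneg _)
        _ = |ev l v| := one_mul _
        _ ≤ _ := h
    push_cast
    linarith

/-! ### the cubic equation, weaker constants -/

theorem hB_slope {S K c d : ℝ} (hS : 8 ≤ S) (hc : -(17 / 50) ≤ c) (hcd : c ≤ d) :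
    7 / 2 * (d - c) ≤ hB S K d - hB S K c := by
  rw [hB_sub]
  have h1 : 0 ≤ d - c := by linarith
  have h2 : (7 / 2 : ℝ) ≤ (1 + c + d) * (12 * (c + d - 1) + 4 * S) := by nlinarith
  have h3 : 0 ≤ 4 * (d - c) ^ 2 := by positivity
  nlinarith

/-- **a root close to an approximate root** -/
theorem cBr_near {S K a r : ℝ} (hS : 8 ≤ S) (hr : 0 ≤ r) (ha : -(17 / 50) ≤ a - r)
    (h : |hB S K a| ≤ 7 / 2 * r) : |cBr S K - a| ≤ r ∧ hB S K (cBr S K) = 0 := by
  obtain ⟨h1, h2⟩ := abs_le.1 h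
  have h3 := hB_slope (K := K) hS ha (by linarith : a - r ≤ a)
  have h4 := hB_slope (K := K) hS (by linarith : -(17 / 50) ≤ a) (by linarith : a ≤ a + r)
  have hcont : ContinuousOn (hB S K) (Set.Icc (a - r) (a + r)) := by
    unfold hB
    fun_prop
  have h5 : (0 : ℝ) ∈ Set.Icc (hB S K (a - r)) (hB S K (a + r)) :=
    ⟨by linarith, by linarith⟩
  obtain ⟨c, hc, h6⟩ := intermediate_value_Icc (by linarith) hcont h5
  have h7 : cBr S K = c := cBr_eq (by linarith) (by linarith [hc.1]) h6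
  rw [h7]
  refine ⟨?_, h6⟩
  rw [abs_le]
  constructor <;> linarith [hc.1, hc.2]

/-! ### replacing the weights by the numbers of the table -/

/-- bounds for two weights and their numbers -/
structure Ap (a a0 : ℝ) : Prop where
  l : 1 ≤ a
  u : a < 2
  e : |a - a0| ≤ 1 / 2 ^ 48

theorem Ap.a0 {a a0 : ℝ} (h : Ap a a0) : 9 / 10 ≤ a0 ∧ a0 ≤ 2 + 1 / 2 ^ 48 := by
  obtain ⟨h1, h2⟩ := abs_le.1 h.e
  have := h.l
  have := h.u
  have h3 : (1 : ℝ) / 2 ^ 48 ≤ 1 / 10 := by norm_num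
  constructor <;> linarith

theorem Ap.sq {a a0 : ℝ} (h : Ap a a0) : |a ^ 2 - a0 ^ 2| ≤ 401 / 100 * (1 / 2 ^ 48) := by
  obtain ⟨h1, h2⟩ := h.a0
  have e : a ^ 2 - a0 ^ 2 = (a - a0) * (a + a0) := by ring
  rw [e, abs_mul, mul_comm]
  have h3 : |a + a0| ≤ 401 / 100 := by
    rw [abs_of_nonneg (by linarith [h.l])]
    have := h.u
    have h4 : (1 : ℝ) / 2 ^ 48 ≤ 1 / 100 := by norm_num
    linarith
  exact mul_le_mul h3 h.e (abs_nonneg _) (by norm_num)

theorem prod_near {a b a0 b0 : ℝ} (ha : Ap a a0) (hb : Ap b b0) :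
    |a * b - a0 * b0| ≤ 401 / 100 * (1 / 2 ^ 48) := by
  obtain ⟨h1, h2⟩ := ha.a0
  have e : a * b - a0 * b0 = (a - a0) * b + a0 * (b - b0) := by ring
  rw [e]
  refine (abs_add_le _ _).trans ?_
  rw [abs_mul, abs_mul]
  have k1 : |b| ≤ 2 := by
    rw [abs_of_nonneg (by linarith [hb.l])]
    exact hb.u.le
  have k2 : |a0| ≤ 201 / 100 := by
    rw [abs_of_nonneg (by linarith)]
    have h4 : (1 : ℝ) / 2 ^ 48 ≤ 1 / 100 := by norm_num
    linarith
  have k3 := mul_le_mul ha.e k1 (abs_nonneg _) (by norm_num)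
  have k4 := mul_le_mul k2 hb.e (abs_nonneg _) (by norm_num)
  linarith

theorem SS_near {a b k a0 b0 : ℝ} (ha : Ap a a0) (hb : Ap b b0) :
    |SS a b k - SS a0 b0 k| ≤ 802 / 100 * (1 / 2 ^ 48) := by
  have e : SS a b k - SS a0 b0 k = (a ^ 2 - a0 ^ 2) + (b ^ 2 - b0 ^ 2) := by
    unfold SS
    ring
  rw [e]
  have := abs_add_le (a ^ 2 - a0 ^ 2) (b ^ 2 - b0 ^ 2)
  have := ha.sq
  have := hb.sq
  linarith

theorem KK_near {a b k a0 b0 : ℝ} (ha : Ap a a0) (hb : Ap b b0) (h0 : 0 ≤ k) (h2 : k ≤ 2) :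
    |KK a b k - KK a0 b0 k| ≤ 802 / 100 * (1 / 2 ^ 48) := by
  have e : KK a b k - KK a0 b0 k = (a * b - a0 * b0) * k := by
    unfold KK
    ring
  rw [e, abs_mul, abs_of_nonneg h0]
  have := prod_near ha hb
  have h3 := mul_le_mul this h2 h0 (by norm_num)
  linarith

/-- the value of the cubic polynomial -/
theorem hB_near {a b k a0 b0 c : ℝ} (ha : Ap a a0) (hb : Ap b b0) (h0 : 1 ≤ k) (h2 : k ≤ 2)
    (c0 : c ≤ 0) (c1 : -(17 / 50) ≤ c) :
    |hB (SS a b k) (KK a b k) c - hB (SS a0 b0 k) (KK a0 b0 k) c| ≤ 400 * (1 / 2 ^ 48) := by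
  have hS := SS_near (k := k) ha hb
  have hK := KK_near (k := k) ha hb (by linarith) h2
  set S := SS a b k with eS
  set S0 := SS a0 b0 k with eS0
  set K := KK a b k with eK
  set K0 := KK a0 b0 k with eK0
  have e : hB S K c - hB S0 K0 c = (S - S0) * (4 * c ^ 2 + 4 * c + (S + S0) - 2) -
      (K - K0) * (K + K0) := by
    unfold hB
    ring
  obtain ⟨a1, a2⟩ := ha.a0
  obtain ⟨b1, b2⟩ := hb.a0
  have a3 := ha.l
  have a4 := ha.u
  have b3 := hb.l
  have b4 := hb.u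
  have h48 : (1 : ℝ) / 2 ^ 48 ≤ 1 / 1000 := by norm_num
  have s1 : S ≤ 9 := by
    rw [eS]
    unfold SS
    nlinarith
  have s2 : 0 ≤ S := by
    rw [eS]
    unfold SS
    nlinarith
  have s3 : S0 ≤ 91 / 10 := by
    have := (abs_le.1 hS).1
    linarith
  have s4 : -(1 / 10) ≤ S0 := by
    have := (abs_le.1 hS).2
    linarith
  have k1 : K ≤ 8 := by
    rw [eK]
    unfold KK
    have : a * b ≤ 4 := by nlinarith
    have : 0 ≤ a * b := by positivity
    nlinarith
  have k2 : 0 ≤ K := by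
    rw [eK]
    unfold KK
    positivity
  have k3 : K0 ≤ 81 / 10 := by
    have := (abs_le.1 hK).1
    linarith
  have k4 : -(1 / 10) ≤ K0 := by
    have := (abs_le.1 hK).2
    linarith
  have m1 : |4 * c ^ 2 + 4 * c + (S + S0) - 2| ≤ 19 := by
    rw [abs_le]
    constructor <;> nlinarith
  have m2 : |K + K0| ≤ 17 := by
    rw [abs_le]
    constructor <;> linarith
  rw [e]
  refine (abs_sub _ _).trans ?_
  rw [abs_mul, abs_mul]
  have n1 := mul_le_mul hS m1 (abs_nonneg _) (by norm_num)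
  have n2 := mul_le_mul hK m2 (abs_nonneg _) (by norm_num)
  linarith

end Pool.Agent.Helper55.XT
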