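import Pool.Agent.Helper55.XT.A

/-!
The threshold `x_B` of one class with two known weights and a tail: the test of existence
(MP_c75db0).
-/

set_option autoImplicit false
set_option exponentiation.threshold 4000
noncomputable section
namespace Pool.Agent.Helper55.XT

open Pool.Agent.Helper6.MONO (Kp xA xA_eq xA_gt xA_max xA_swap xA_le2 Thr fB fBx fB_eq ZF CertAt
  thr_Kp2)
open Pool.Agent.Helper21.XB (hB hB_sub hB_uniq cBr cBr_eq SS KK xBr xBc xBp fBx_root fBx_neg)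

/-- the weight of the tail, unit `2^-49` -/
def kP (lo hi : ℕ) : List ℤ := [Int.ofNat lo + Int.ofNat hi, Int.ofNat hi - Int.ofNat lo]

/-- a quadratic polynomial with three controls, unit `1/4` -/
def qP (x y z : ℤ) : List ℤ := [x + 2 * y + z, 2 * (z - x), x - 2 * y + z]

/-- power of two -/
def tw (n : ℕ) : ℤ := Int.ofNat (Nat.pow 2 n)

/-- `S`, unit `2^-98` -/
def SP (P Q lo hi : ℕ) : List ℤ :=
  ad [Int.ofNat (4 * (P * P + Q * Q)) - 3 * tw 98] (ml (kP lo hi) (kP lo hi))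

/-- the cubic polynomial, unit `2^-290` -/
def HP (P Q lo hi : ℕ) (C : List ℤ) : List ℤ :=
  ad (ml C (ad (sc (tw 144) (ml C C)) (ad (sc (tw 94) (ml (SP P Q lo hi) C))
    (sc (tw 144) (ad (SP P Q lo hi) [-(3 * tw 98)])))))
  (ad (sc (-Int.ofNat (P * P * (Q * Q))) (ml (kP lo hi) (kP lo hi)))
    (ad (sc (tw 94) (ml (SP P Q lo hi) (SP P Q lo hi))) (ad (sc (-tw 193) (SP P Q lo hi))
      [5 * tw 290])))

/-- the comparison with `x_A`, unit `2^-192` -/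
def TP (P Q lo hi : ℕ) (C : List ℤ) : List ℤ :=
  ad (ad (sc (tw 94) (ml C C)) (sc (tw 144) C))
    (ad (sc (tw 94) (ml (kP lo hi) (kP lo hi)))
      [tw 97 * Int.ofNat (P * P + Q * Q) - Int.ofNat (P * P * (Q * Q)) - 4 * tw 192])

/-- **the test of existence** -/
def xtE (P Q lo hi : ℕ) (CA CB CC : ℤ) (m : ℕ) : Bool :=
  Nat.blt lo hi && (decide (2 * Int.ofNat (sa (HP P Q lo hi (qP CA CB CC))) + 800 * tw 242 ≤
    7 * Int.ofNat m * tw 242) && (decide (50 * (ub (sc (-1) (qP CA CB CC)) + 4 * Int.ofNat m) ≤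
      17 * tw 50) && (decide (ub (qP CA CB CC) + 4 * Int.ofNat m ≤ 0) &&
      (decide (ub (sc (-1) (SP P Q lo hi)) + 8 * tw 98 + tw 54 ≤ 0) &&
        decide (ub (TP P Q lo hi (qP CA CB CC)) + (4 * Int.ofNat m + 60) * tw 144 ≤ 0)))))

theorem tw_eq (n : ℕ) : ((tw n : ℤ) : ℝ) = 2 ^ n := by
  show (((2 ^ n : ℕ) : ℤ) : ℝ) = 2 ^ n
  push_cast
  rfl

theorem ofNat_cast (n : ℕ) : ((Int.ofNat n : ℤ) : ℝ) = n := by
  show (((n : ℕ) : ℤ) : ℝ) = n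
  simp

/-- the variable of a weight -/
def vr (lo hi : ℕ) (k : ℝ) : ℝ := (2 ^ 49 * k - (lo + hi)) / (hi - lo)

section

variable {lo hi : ℕ} {k : ℝ}

theorem vr_abs (h : lo < hi) (h1 : (lo : ℝ) ≤ 2 ^ 48 * k) (h2 : 2 ^ 48 * k ≤ (hi : ℝ)) :
    |vr lo hi k| ≤ 1 := by
  have h3 : (lo : ℝ) < hi := by exact_mod_cast h
  have h4 : (0 : ℝ) < (hi : ℝ) - lo := by linarith
  unfold vr
  rw [abs_div, abs_of_pos h4, div_le_one h4, abs_le]
  constructor <;> linarith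

theorem ev_kP (h : lo < hi) : ev (kP lo hi) (vr lo hi k) = 2 ^ 49 * k := by
  have h3 : (lo : ℝ) < hi := by exact_mod_cast h
  have h4 : (0 : ℝ) < (hi : ℝ) - lo := by linarith
  show ((Int.ofNat lo + Int.ofNat hi : ℤ) : ℝ) + vr lo hi k *
    (((Int.ofNat hi - Int.ofNat lo : ℤ) : ℝ) + vr lo hi k * 0) = _
  rw [Int.cast_add, Int.cast_sub, ofNat_cast, ofNat_cast]
  unfold vr
  field_simp
  ring

theorem ev_qP (x y z : ℤ) (v : ℝ) : ev (qP x y z) v =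
    (1 - v) ^ 2 * x + 2 * (1 - v ^ 2) * y + (1 + v) ^ 2 * z := by
  show ((x + 2 * y + z : ℤ) : ℝ) + v * (((2 * (z - x) : ℤ) : ℝ) + v *
    (((x - 2 * y + z : ℤ) : ℝ) + v * 0)) = _
  push_cast
  ring

theorem ev_one (a : ℤ) (v : ℝ) : ev [a] v = a := by
  show (a : ℝ) + v * 0 = a
  ring

theorem ev_SP (P Q : ℕ) (h : lo < hi) : ev (SP P Q lo hi) (vr lo hi k) =
    2 ^ 98 * SS ((P : ℝ) / 2 ^ 48) ((Q : ℝ) / 2 ^ 48) k := by
  unfold SP
  rw [ev_ad, ev_ml, ev_kP h, ev_one]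
  push_cast
  rw [ofNat_cast, tw_eq]
  unfold SS
  push_cast
  ring

theorem ev_HP (P Q : ℕ) (h : lo < hi) (C : List ℤ) : ev (HP P Q lo hi C) (vr lo hi k) =
    2 ^ 290 * hB (SS ((P : ℝ) / 2 ^ 48) ((Q : ℝ) / 2 ^ 48) k)
      (KK ((P : ℝ) / 2 ^ 48) ((Q : ℝ) / 2 ^ 48) k) (ev C (vr lo hi k) / 2 ^ 50) := by
  unfold HP
  simp only [ev_ad, ev_ml, ev_sc, ev_one, ev_SP P Q h, ev_kP h]
  push_cast
  simp only [ofNat_cast, tw_eq]
  unfold hB KK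
  push_cast
  ring

theorem ev_TP (P Q : ℕ) (h : lo < hi) (C : List ℤ) : ev (TP P Q lo hi C) (vr lo hi k) =
    2 ^ 192 * (4 * (ev C (vr lo hi k) / 2 ^ 50) ^ 2 + 4 * (ev C (vr lo hi k) / 2 ^ 50) +
      2 * ((P : ℝ) / 2 ^ 48) ^ 2 + 2 * ((Q : ℝ) / 2 ^ 48) ^ 2 -
      ((P : ℝ) / 2 ^ 48 * ((Q : ℝ) / 2 ^ 48)) ^ 2 - 4 + k ^ 2) := by
  unfold TP
  simp only [ev_ad, ev_ml, ev_sc, ev_one, ev_kP h]
  push_cast
  simp only [ofNat_cast, tw_eq]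
  push_cast
  ring

end

/-- what the test gives for the cubic equation -/
structure XE (a b k : ℝ) (P Q lo hi : ℕ) (CA CB CC : ℤ) (m : ℕ) : Prop where
  S : 8 ≤ SS a b k
  z : hB (SS a b k) (KK a b k) (cBr (SS a b k) (KK a b k)) = 0
  n : |cBr (SS a b k) (KK a b k) - ev (qP CA CB CC) (vr lo hi k) / 2 ^ 50| ≤ (m : ℝ) / 2 ^ 48
  l : -(17 / 50) ≤ ev (qP CA CB CC) (vr lo hi k) / 2 ^ 50 - (m : ℝ) / 2 ^ 48
  u : ev (qP CA CB CC) (vr lo hi k) / 2 ^ 50 + (m : ℝ) / 2 ^ 48 ≤ 0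
  t : 4 * cBr (SS a b k) (KK a b k) ^ 2 + 4 * cBr (SS a b k) (KK a b k) + 2 * a ^ 2 +
    2 * b ^ 2 - (a * b) ^ 2 - 4 + k ^ 2 ≤ 0

theorem xtE_c {a b k : ℝ} {P Q lo hi : ℕ} {CA CB CC : ℤ} {m : ℕ}
    (ha : Ap a ((P : ℝ) / 2 ^ 48)) (hb : Ap b ((Q : ℝ) / 2 ^ 48)) (k1 : 1 ≤ k) (k2 : k ≤ 2)
    (h1 : (lo : ℝ) ≤ 2 ^ 48 * k) (h2 : 2 ^ 48 * k ≤ (hi : ℝ))
    (h : xtE P Q lo hi CA CB CC m = true) : XE a b k P Q lo hi CA CB CC m := by
  unfold xtE at h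
  simp only [Bool.and_eq_true, decide_eq_true_eq] at h
  obtain ⟨g0, g1, g2, g3, g4, g5⟩ := h
  have hlt : lo < hi := Nat.le_of_ble_eq_true g0
  have hv := vr_abs hlt h1 h2
  set v := vr lo hi k with hv0
  set C := qP CA CB CC with hC
  set ct := ev C v / 2 ^ 50 with hct
  set a0 := (P : ℝ) / 2 ^ 48 with ha0
  set b0 := (Q : ℝ) / 2 ^ 48 with hb0
  have hm : (0 : ℝ) ≤ (m : ℝ) / 2 ^ 48 := by positivity
  -- `S`
  have f4 : (8 : ℝ) + 16 * (1 / 2 ^ 48) ≤ SS a0 b0 k := by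
    have e1 := ev_le (sc (-1) (SP P Q lo hi)) hv
    rw [ev_sc, hv0, ev_SP P Q hlt] at e1
    have e2 : ((ub (sc (-1) (SP P Q lo hi)) + 8 * tw 98 + tw 54 : ℤ) : ℝ) ≤ 0 := by
      exact_mod_cast g4
    push_cast at e1 e2
    rw [tw_eq, tw_eq] at e2
    rw [← ha0, ← hb0] at e1
    linarith
  have fS : 8 ≤ SS a b k := by
    have := (abs_le.1 (SS_near (k := k) ha hb)).1
    linarith
  -- bounds of the approximation
  have f2 : -(17 / 50) ≤ ct - (m : ℝ) / 2 ^ 48 := by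
    have e1 := ev_le (sc (-1) C) hv
    rw [ev_sc] at e1
    have e2 : ((50 * (ub (sc (-1) C) + 4 * Int.ofNat m) : ℤ) : ℝ) ≤ ((17 * tw 50 : ℤ) : ℝ) := by
      exact_mod_cast g2
    push_cast at e1 e2
    rw [tw_eq, ofNat_cast] at e2
    rw [hct]
    linarith
  have f3 : ct + (m : ℝ) / 2 ^ 48 ≤ 0 := by
    have e1 := ev_le C hv
    have e2 : ((ub C + 4 * Int.ofNat m : ℤ) : ℝ) ≤ 0 := by exact_mod_cast g3
    push_cast at e2
    rw [ofNat_cast] at e2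
    rw [hct]
    linarith
  -- the cubic polynomial at the approximation
  have f1 : |hB (SS a b k) (KK a b k) ct| ≤ 7 / 2 * ((m : ℝ) / 2 ^ 48) := by
    have e1 := abs_ev (HP P Q lo hi C) hv
    rw [hv0, ev_HP P Q hlt, ← ha0, ← hb0, ← hv0, ← hct] at e1
    rw [abs_mul, abs_of_pos (by positivity : (0 : ℝ) < 2 ^ 290)] at e1
    have e2 : ((2 * Int.ofNat (sa (HP P Q lo hi C)) + 800 * tw 242 : ℤ) : ℝ) ≤
        ((7 * Int.ofNat m * tw 242 : ℤ) : ℝ) := by exact_mod_cast g1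
    push_cast at e2
    rw [tw_eq, ofNat_cast, ofNat_cast] at e2
    have e3 := hB_near (c := ct) ha hb k1 k2 (by linarith) (by linarith)
    have e4 := abs_sub_abs_le_abs_sub (hB (SS a b k) (KK a b k) ct)
      (hB (SS a0 b0 k) (KK a0 b0 k) ct)
    have e5 : (0 : ℝ) ≤ |hB (SS a0 b0 k) (KK a0 b0 k) ct| := abs_nonneg _
    linarith
  obtain ⟨c1, c2⟩ := cBr_near fS hm f2 f1
  refine ⟨fS, c2, c1, f2, f3, ?_⟩
  -- the comparison
  set c := cBr (SS a b k) (KK a b k) with hc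
  have e1 := ev_le (TP P Q lo hi C) hv
  rw [hv0, ev_TP P Q hlt, ← ha0, ← hb0, ← hv0, ← hct] at e1
  have e2 : ((ub (TP P Q lo hi C) + (4 * Int.ofNat m + 60) * tw 144 : ℤ) : ℝ) ≤ 0 := by
    exact_mod_cast g5
  push_cast at e2
  rw [tw_eq, ofNat_cast] at e2
  have d1 := (abs_le.1 ha.sq).2
  have d2 := (abs_le.1 hb.sq).2
  have d3 := (abs_le.1 (prod_near ha hb)).1
  obtain ⟨c3, c4⟩ := abs_le.1 c1
  have d4 : 4 * c ^ 2 + 4 * c ≤ 4 * ct ^ 2 + 4 * ct + 4 * ((m : ℝ) / 2 ^ 48) := by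
    have e : 4 * c ^ 2 + 4 * c - (4 * ct ^ 2 + 4 * ct) = 4 * ((c - ct) * (1 + c + ct)) := by ring
    have e' : (c - ct) * (1 + c + ct) ≤ (m : ℝ) / 2 ^ 48 * 1 :=
      mul_le_mul c4 (by linarith) (by linarith) hm
    linarith
  have d5 : (a0 * b0) ^ 2 - 40 * (1 / 2 ^ 48) ≤ (a * b) ^ 2 := by
    obtain ⟨x1, x2⟩ := ha.a0
    obtain ⟨y1, y2⟩ := hb.a0
    have x3 : a0 * b0 ≤ 41 / 10 := by
      have h4 : (1 : ℝ) / 2 ^ 48 ≤ 1 / 100 := by norm_num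
      nlinarith
    have x4 : 0 ≤ a0 * b0 := by positivity
    have x5 : 0 ≤ a * b := by
      have := ha.l
      have := hb.l
      positivity
    have x7 : a * b ≤ 4 := by
      have := ha.l
      have := hb.l
      have := ha.u
      have := hb.u
      nlinarith
    have x8 : 0 ≤ (a * b - a0 * b0 + 401 / 100 * (1 / 2 ^ 48)) * (a * b + a0 * b0) :=
      mul_nonneg (by linarith) (by linarith)
    have x9 : (1 : ℝ) / 2 ^ 48 * (a * b + a0 * b0) ≤ 1 / 2 ^ 48 * (81 / 10) :=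
      mul_le_mul_of_nonneg_left (by linarith) (by positivity)
    linarith
  linarith

end Pool.Agent.Helper55.XT
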