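import Pool.Agent.Helper55.XT.B
import Pool.Agent.Helper84.XL.C
import Pool.Agent.Helper81.MIT.Gbx

/-!
The threshold `x_B` of one class with two known orders and a tail (MP_c75db0): the conditions at
the threshold, the certificate, and the comparison with a quadratic polynomial of the weight.
-/

set_option autoImplicit false
set_option exponentiation.threshold 4000
noncomputable section
namespace Pool.Agent.Helper55.XT

open Pool.Agent.Helper6.MONO (Kp xA xA_eq xA_gt xA_max xA_swap xA_le2 Thr fB fBx fB_eq ZF CertAt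
  thr_Kp2 FinAt g_FIN')
open Pool.Agent.Helper6.MONO.QTR (QX zf_of_qx)
open Pool.Agent.Helper21.XB (hB hB_sub hB_uniq cBr cBr_eq SS KK xBr xBc xBp fBx_root fBx_neg
  xBp_swap)
open Pool.Agent.Helper84.XL (q3 par)
open Pool.Agent.Helper86.C75 (Z)
open Pool.Agent.Helper90.KMO (zv)
open Pool.Agent.Helper81.MIT (kbz kapz)

theorem Ap_Kp {M : ℕ} (h3 : 3 ≤ M) (h : M ≤ 48) : Ap (Kp M) ((kbz M : ℝ) / 2 ^ 48) :=
  ⟨(thr_Kp2 M h3).1, (thr_Kp2 M h3).2, kapz M h3 h⟩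

section

variable {p q r lo hi m : ℕ} {CA CB CC : ℤ}

/-- **THE EXISTENCE**: the conditions at the threshold `x_B`, and zero freeness down to `x_B` is
the certificate -/
theorem xt_E (hp : 3 ≤ p) (hq : 3 ≤ q) (hp' : p ≤ 48) (hq' : q ≤ 48) (hpr : p ≤ r) (hqr : q ≤ r)
    (h1 : (lo : ℝ) ≤ 2 ^ 48 * Kp r) (h2 : 2 ^ 48 * Kp r ≤ (hi : ℝ))
    (h : xtE (kbz p) (kbz q) lo hi CA CB CC m = true) :
    Thr p q r (xBp p q r) ∧ fB p q r (xBp p q r) = 0 ∧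
      (ZF p q r (xBp p q r) → CertAt p q r) := by
  have hr : 3 ≤ r := hp.trans hpr
  obtain ⟨k1, k2⟩ := thr_Kp2 r hr
  have E := xtE_c (Ap_Kp hp hp') (Ap_Kp hq hq') k1 k2.le h1 h2 h
  obtain ⟨a1, a2⟩ := thr_Kp2 p hp
  obtain ⟨b1, b2⟩ := thr_Kp2 q hq
  obtain ⟨n1, n2⟩ := abs_le.1 E.n
  have hl := E.l
  have hu := E.u
  have hS := E.S
  have ht := E.t
  have hK : 0 < KK (Kp p) (Kp q) (Kp r) := by
    unfold KK
    positivity
  set S := SS (Kp p) (Kp q) (Kp r) with eS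
  set K := KK (Kp p) (Kp q) (Kp r) with eK
  set c := cBr S K with hc
  have c0 : -(17 / 50) ≤ c := by linarith
  have eX : K * xBp p q r = 2 * (1 - 2 * c - 2 * c ^ 2 - S) := by
    show K * (2 * (1 - 2 * c - 2 * c ^ 2 - S) / K) = _
    field_simp
  have hfB : fB p q r (xBp p q r) = 0 := by
    rw [fB_eq]
    exact fBx_root hK.ne' E.z
  have hA : xA p q r ≤ xBp p q r := by
    rw [xA_eq]
    have e : Kp p * Kp q * Kp r = K := rfl
    rw [e, div_le_iff₀ hK, mul_comm (xBp p q r) K, eX, eS]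
    unfold SS
    nlinarith
  have g := xA_gt hp hq hqr
  have hle : xBp p q r ≤ 2 := by
    by_contra hcon
    push Not at hcon
    have h5 := mul_lt_mul_of_pos_left hcon hK
    rw [eX] at h5
    nlinarith [sq_nonneg (2 * c + 1)]
  refine ⟨⟨by linarith, hle, hA, ?_, (xA_max hp hq hqr).trans hA, hfB.ge,
    Or.inr (Or.inr (Or.inr hfB))⟩, hfB, fun hZ => ?_⟩
  · have h5 := xA_max hq hp hpr
    rw [xA_swap p q r] at h5
    rw [xA_swap r q p]
    exact h5.trans hA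
  · refine ⟨xBp p q r, by linarith, fun x1 hx1 => ?_, hZ⟩
    obtain ⟨x, y1, y2, y3⟩ := fBx_neg hK E.z (by linarith) (by linarith) hx1
    exact ⟨x, y1, y2.le, y2.le.trans hle, Or.inr (by rw [fB_eq]; exact y3)⟩

/-- **THE FINAL STATEMENT OF ONE CLASS** -/
theorem xt_fin (hp : 3 ≤ p) (hpq : p ≤ q) (hq' : q ≤ 48) (hqr : q ≤ r) (hne : ¬ (p = 3 ∧ q = 3 ∧ r = 3))
    (h1 : (lo : ℝ) ≤ 2 ^ 48 * Kp r) (h2 : 2 ^ 48 * Kp r ≤ (hi : ℝ))
    (h : xtE (kbz p) (kbz q) lo hi CA CB CC m = true) (hQ : QX p q r (xBp p q r))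
    (hQ' : QX q p r (xBp p q r)) : FinAt p q r := by
  obtain ⟨hT, -, hC⟩ := xt_E hp (hp.trans hpq) (hpq.trans hq') hq' (hpq.trans hqr) hqr h1 h2 h
  exact g_FIN' p q r hp (hp.trans hpq) (hp.trans (hpq.trans hqr))
    (hC (zf_of_qx hp hpq hqr hne hT.gt hT.A1 hQ hQ'))

/-! ### the comparison with a quadratic polynomial -/

/-- `K x + 4 c + 4 c^2 + 2 S - 2`, unit `2^-195` -/
def EP (P Q lo hi : ℕ) (C X : List ℤ) : List ℤ :=
  ad (sc (Int.ofNat (P * Q)) (ml (kP lo hi) X)) (ad (sc (tw 147) C) (ad (sc (tw 97) (ml C C))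
    (ad (sc (tw 98) (SP P Q lo hi)) [-tw 196])))

/-- **the test of the quadratic polynomial** -/
def xtX (P Q lo hi : ℕ) (CA CB CC : ℤ) (m : ℕ) (XA XB XC : ℤ) (n : ℕ) : Bool :=
  decide (ub (sc (-Int.ofNat (P * Q)) (kP lo hi)) + 7 * tw 145 + tw 101 ≤ 0) &&
    (decide (Int.ofNat (sa (qP XA XB XC)) ≤ 2 * tw 50) &&
      decide (Int.ofNat (sa (EP P Q lo hi (qP CA CB CC) (qP XA XB XC))) +
        (4 * Int.ofNat m + 40) * tw 147 ≤ 7 * Int.ofNat n * tw 147))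

theorem ev_EP (P Q : ℕ) {k : ℝ} (h : lo < hi) (C X : List ℤ) :
    ev (EP P Q lo hi C X) (vr lo hi k) =
    2 ^ 195 * (KK ((P : ℝ) / 2 ^ 48) ((Q : ℝ) / 2 ^ 48) k * (ev X (vr lo hi k) / 2 ^ 50) -
      2 * (1 - 2 * (ev C (vr lo hi k) / 2 ^ 50) - 2 * (ev C (vr lo hi k) / 2 ^ 50) ^ 2 -
        SS ((P : ℝ) / 2 ^ 48) ((Q : ℝ) / 2 ^ 48) k)) := by
  unfold EP
  simp only [ev_ad, ev_ml, ev_sc, ev_one, ev_SP P Q h, ev_kP h]
  push_cast
  simp only [ofNat_cast, tw_eq]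
  unfold KK
  push_cast
  ring

theorem q3_ev {k : ℝ} (h : lo < hi) (x y z : ℤ) :
    ev (qP x y z) (vr lo hi k) = 4 * q3 x y z (par lo hi k) := by
  have h3 : (lo : ℝ) < hi := by exact_mod_cast h
  have h4 : (hi : ℝ) - lo ≠ 0 := by
    intro h0
    linarith
  have e : vr lo hi k = 2 * par lo hi k - 1 := by
    unfold vr par
    field_simp
    ring
  rw [ev_qP, e]
  unfold q3
  ring

/-- **THE LINE**: `x_B` and a quadratic polynomial -/
theorem xt_X {n : ℕ} {XA XB XC : ℤ} (hp : 3 ≤ p) (hq : 3 ≤ q) (hp' : p ≤ 48) (hq' : q ≤ 48)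
    (hr : 3 ≤ r) (h1 : (lo : ℝ) ≤ 2 ^ 48 * Kp r) (h2 : 2 ^ 48 * Kp r ≤ (hi : ℝ))
    (h : xtE (kbz p) (kbz q) lo hi CA CB CC m = true)
    (h' : xtX (kbz p) (kbz q) lo hi CA CB CC m XA XB XC n = true) :
    |2 ^ 48 * xBp p q r - q3 XA XB XC (par lo hi (Kp r))| ≤ (n : ℝ) := by
  obtain ⟨k1, k2⟩ := thr_Kp2 r hr
  have A := Ap_Kp hp hp'
  have B := Ap_Kp hq hq'
  have E := xtE_c A B k1 k2.le h1 h2 h
  have hlt : lo < hi := by
    unfold xtE at h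
    simp only [Bool.and_eq_true] at h
    exact Nat.le_of_ble_eq_true h.1
  obtain ⟨n1, n2⟩ := abs_le.1 E.n
  have hl := E.l
  have hu := E.u
  have hv := vr_abs hlt h1 h2
  unfold xtX at h'
  simp only [Bool.and_eq_true, decide_eq_true_eq] at h'
  obtain ⟨g1, g2, g3⟩ := h'
  have a1 := A.l
  have b1 := B.l
  have hKn := KK_near (k := Kp r) A B (by linarith) k2.le
  have hSn := SS_near (k := Kp r) A B
  have hK : 0 < KK (Kp p) (Kp q) (Kp r) := by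
    unfold KK
    positivity
  set a0 := (kbz p : ℝ) / 2 ^ 48 with ha0
  set b0 := (kbz q : ℝ) / 2 ^ 48 with hb0
  set S := SS (Kp p) (Kp q) (Kp r) with eS
  set K := KK (Kp p) (Kp q) (Kp r) with eK
  set c := cBr S K with hc
  set v := vr lo hi (Kp r) with hv0
  set ct := ev (qP CA CB CC) v / 2 ^ 50 with hct
  set xt := ev (qP XA XB XC) v / 2 ^ 50 with hxt
  have hm : (0 : ℝ) ≤ (m : ℝ) / 2 ^ 48 := by positivity
  have eX : K * xBp p q r = 2 * (1 - 2 * c - 2 * c ^ 2 - S) := by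
    show K * (2 * (1 - 2 * c - 2 * c ^ 2 - S) / K) = _
    field_simp
  -- `7 ≤ K`
  have f1 : 7 ≤ K := by
    have e1 := ev_le (sc (-Int.ofNat (kbz p * kbz q)) (kP lo hi)) hv
    rw [ev_sc, hv0, ev_kP hlt] at e1
    have e2 : ((ub (sc (-Int.ofNat (kbz p * kbz q)) (kP lo hi)) + 7 * tw 145 + tw 101 : ℤ) : ℝ) ≤
        0 := by exact_mod_cast g1
    push_cast at e1 e2
    rw [tw_eq, tw_eq] at e2
    rw [ofNat_cast] at e1
    push_cast at e1
    have e3 : KK a0 b0 (Kp r) = (kbz p : ℝ) * kbz q * Kp r / 2 ^ 96 := by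
      rw [ha0, hb0]
      unfold KK
      ring
    have e4 := (abs_le.1 hKn).1
    rw [e3] at e4
    have e5 : (7 : ℝ) + 16 * (1 / 2 ^ 48) ≤ (kbz p : ℝ) * kbz q * Kp r / 2 ^ 96 := by
      rw [le_div_iff₀ (by positivity)]
      norm_num at e1 e2 ⊢
      linarith
    linarith
  have f2 : |xt| ≤ 2 := by
    have e1 := abs_ev (qP XA XB XC) hv
    have e2 : ((Int.ofNat (sa (qP XA XB XC)) : ℤ) : ℝ) ≤ ((2 * tw 50 : ℤ) : ℝ) := by
      exact_mod_cast g2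
    push_cast at e2
    rw [tw_eq, ofNat_cast] at e2
    rw [hxt, abs_div, abs_of_pos (by positivity : (0 : ℝ) < 2 ^ 50), div_le_iff₀ (by positivity)]
    linarith
  have f3 : |KK a0 b0 (Kp r) * xt - 2 * (1 - 2 * ct - 2 * ct ^ 2 - SS a0 b0 (Kp r))| +
      4 * ((m : ℝ) / 2 ^ 48) + 40 * (1 / 2 ^ 48) ≤ 7 * ((n : ℝ) / 2 ^ 48) := by
    have e1 := abs_ev (EP (kbz p) (kbz q) lo hi (qP CA CB CC) (qP XA XB XC)) hv
    rw [hv0, ev_EP _ _ hlt, ← ha0, ← hb0, ← hv0, ← hct, ← hxt, abs_mul,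
      abs_of_pos (by positivity : (0 : ℝ) < 2 ^ 195)] at e1
    have e2 : ((Int.ofNat (sa (EP (kbz p) (kbz q) lo hi (qP CA CB CC) (qP XA XB XC))) +
        (4 * Int.ofNat m + 40) * tw 147 : ℤ) : ℝ) ≤ ((7 * Int.ofNat n * tw 147 : ℤ) : ℝ) := by
      exact_mod_cast g3
    push_cast at e2
    rw [tw_eq, ofNat_cast, ofNat_cast, ofNat_cast] at e2
    linarith
  have f4 : |2 * (1 - 2 * c - 2 * c ^ 2 - S) - 2 * (1 - 2 * ct - 2 * ct ^ 2 - SS a0 b0 (Kp r))| ≤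
      4 * ((m : ℝ) / 2 ^ 48) + 2 * (802 / 100 * (1 / 2 ^ 48)) := by
    have e : 2 * (1 - 2 * c - 2 * c ^ 2 - S) - 2 * (1 - 2 * ct - 2 * ct ^ 2 - SS a0 b0 (Kp r)) =
        -(4 * ((c - ct) * (1 + c + ct))) - 2 * (S - SS a0 b0 (Kp r)) := by ring
    rw [e]
    refine (abs_sub _ _).trans ?_
    rw [abs_neg, abs_mul, abs_mul, abs_mul]
    have e1 : |1 + c + ct| ≤ 1 := by
      rw [abs_le]
      constructor <;> linarith
    have hn : |c - ct| ≤ (m : ℝ) / 2 ^ 48 := E.n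
    have e2 := mul_le_mul hn e1 (abs_nonneg _) hm
    have e3 : |(4 : ℝ)| = 4 := abs_of_pos (by norm_num)
    have e4 : |(2 : ℝ)| = 2 := abs_of_pos (by norm_num)
    rw [e3, e4]
    linarith
  have f5 : |(K - KK a0 b0 (Kp r)) * xt| ≤ 802 / 100 * (1 / 2 ^ 48) * 2 := by
    rw [abs_mul]
    exact mul_le_mul hKn f2 (abs_nonneg _) (by positivity)
  have f6 : |K * (xBp p q r - xt)| ≤ 7 * ((n : ℝ) / 2 ^ 48) := by
    have e : K * (xBp p q r - xt) =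
        (2 * (1 - 2 * c - 2 * c ^ 2 - S) - 2 * (1 - 2 * ct - 2 * ct ^ 2 - SS a0 b0 (Kp r))) -
        (K - KK a0 b0 (Kp r)) * xt -
        (KK a0 b0 (Kp r) * xt - 2 * (1 - 2 * ct - 2 * ct ^ 2 - SS a0 b0 (Kp r))) := by
      rw [mul_sub, eX]
      ring
    rw [e]
    refine (abs_sub _ _).trans ?_
    have e1 := abs_sub (2 * (1 - 2 * c - 2 * c ^ 2 - S) -
      2 * (1 - 2 * ct - 2 * ct ^ 2 - SS a0 b0 (Kp r))) ((K - KK a0 b0 (Kp r)) * xt)
    linarith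
  have f7 : 7 * |xBp p q r - xt| ≤ 7 * ((n : ℝ) / 2 ^ 48) := by
    rw [abs_mul, abs_of_pos hK] at f6
    have := mul_le_mul_of_nonneg_right f1 (abs_nonneg (xBp p q r - xt))
    linarith
  have e : 2 ^ 48 * xBp p q r - q3 XA XB XC (par lo hi (Kp r)) = 2 ^ 48 * (xBp p q r - xt) := by
    rw [hxt, hv0, q3_ev hlt]
    ring
  rw [e, abs_mul, abs_of_pos (by positivity : (0 : ℝ) < 2 ^ 48)]
  have f8 : |xBp p q r - xt| ≤ (n : ℝ) / 2 ^ 48 := by linarith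
  rw [le_div_iff₀ (by positivity)] at f8
  linarith

end

end Pool.Agent.Helper55.XT
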