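import Pool.Agent.Helper55.XT.C

/-!
Examples of the tests of `Pool/Agent/Helper55/XT/C.lean` (MP_c75db0).
-/

set_option autoImplicit false
set_option exponentiation.threshold 4000
noncomputable section
namespace Pool.Agent.Helper55.XT

open Pool.Agent.Helper6.MONO (Kp Thr fB ZF CertAt)
open Pool.Agent.Helper21.XB (xBp)
open Pool.Agent.Helper81.MIT (kbz)

theorem ex_13_14 : xtE (kbz 13) (kbz 14) 560921919764127 562949953421312
    (-83032353798889) (-82979860272796) (-82965264029607) 84550214 = true := by decide +kernel

theorem ex_13_14X : xtX (kbz 13) (kbz 14) 560921919764127 562949953421312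
    (-83032353798889) (-82979860272796) (-82965264029607) 84550214
    (-531811428818326) (-531932666658221) (-532048694667253) 50816656 = true := by decide +kernel

theorem ex_13_13 : xtE (kbz 13) (kbz 13) 560548508165297 561124480186507
    (-84121754688949) (-84113617790599) (-84108632228417) 1759417 = true := by decide +kernel

/-- the class `(13, 14, r)`, `r ≥ 37` -/
theorem thr_13_14 {r : ℕ} (hr : 14 ≤ r) (h1 : ((560921919764127 : ℕ) : ℝ) ≤ 2 ^ 48 * Kp r)
    (h2 : 2 ^ 48 * Kp r ≤ ((562949953421312 : ℕ) : ℝ)) : Thr 13 14 r (xBp 13 14 r) :=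
  (xt_E (by norm_num) (by norm_num) (by norm_num) (by norm_num) (by omega) hr h1 h2 ex_13_14).1

end Pool.Agent.Helper55.XT
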